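import Mathlib

set_option autoImplicit false
set_option maxRecDepth 100000

/-!
# The Hasse invariant of `Y ^ 2 + 3 s X Y + (x + s) Y = X ^ 3`
-/

namespace H29ML

open Polynomial

/-- The Hasse invariant, over a field of characteristic `p > 2`, of the curve
`Y ^ 2 + 3 s X Y + (x + s) Y = X ^ 3`, that is `(2 Y + 3 s X + x + s) ^ 2 = f` with
`f = 4 X ^ 3 + (3 s X + x + s) ^ 2`: the coefficient of `X ^ (p - 1)` in `f ^ ((p - 1) / 2)`. -/
noncomputable def hasse {F : Type} [Field F] (p : ℕ) (x : ℤ) (s : F) : F :=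
  ((4 * X ^ 3 + (C (3 * s) * X + C ((x : F) + s)) ^ 2) ^ ((p - 1) / 2) : F[X]).coeff (p - 1)

theorem coeff_lin {F : Type} [Field F] (a b : F) (N j : ℕ) :
    ((C a * X + C b) ^ N : F[X]).coeff j = (N.choose j : F) * a ^ j * b ^ (N - j) := by
  rw [add_pow, finsetSum_coeff]
  have h : ∀ m ∈ Finset.range (N + 1),
      ((C a * X) ^ m * C b ^ (N - m) * ((N.choose m : ℕ) : F[X])).coeff j
        = if j = m then (N.choose m : F) * a ^ m * b ^ (N - m) else 0 := by
    intro m _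
    have e1 : (C a * X) ^ m * C b ^ (N - m) * ((N.choose m : ℕ) : F[X])
        = C ((N.choose m : F) * a ^ m * b ^ (N - m)) * X ^ m := by
      rw [mul_pow]
      simp only [map_mul, map_pow, map_natCast]
      ring
    rw [e1, coeff_C_mul, coeff_X_pow]
    split_ifs with h1
    · rw [mul_one]
    · rw [mul_zero]
  rw [Finset.sum_congr rfl h, Finset.sum_ite_eq]
  split_ifs with h1
  · rfl
  · rw [Finset.mem_range, not_lt] at h1
    rw [Nat.choose_eq_zero_of_lt (by omega)]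
    simp

/-- the terms of the Hasse invariant -/
theorem hasse_sum {F : Type} [Field F] {p n : ℕ} (hp : p = 2 * n + 1) (x : ℤ) (s : F) :
    hasse p x s = ∑ i ∈ Finset.range (n + 1), if 3 * i ≤ 2 * n then
      (((n.choose i * (2 * (n - i)).choose (2 * n - 3 * i) * 4 ^ i : ℕ) : F)
        * (3 * s) ^ (2 * n - 3 * i) * ((x : F) + s) ^ i) else 0 := by
  unfold hasse
  have e1 : (p - 1) / 2 = n := by omega
  have e2 : p - 1 = 2 * n := by omega
  rw [e1, e2, add_pow, finsetSum_coeff]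
  apply Finset.sum_congr rfl
  intro i hi
  rw [Finset.mem_range] at hi
  set a : F := 3 * s
  set b : F := (x : F) + s
  have e3 : (4 * X ^ 3 : F[X]) ^ i * ((C a * X + C b) ^ 2) ^ (n - i) * ((n.choose i : ℕ) : F[X])
      = C ((n.choose i : F) * 4 ^ i) * (X ^ (3 * i) * (C a * X + C b) ^ (2 * (n - i))) := by
    have h4 : (4 : F[X]) = C 4 := (map_ofNat C 4).symm
    rw [h4, mul_pow, ← pow_mul, ← pow_mul]
    simp only [map_mul, map_pow, map_natCast]
    ring
  rw [e3, coeff_C_mul, coeff_X_pow_mul']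
  split_ifs with h1
  · rw [coeff_lin]
    have e4 : 2 * (n - i) - (2 * n - 3 * i) = i := by omega
    rw [e4]
    push_cast
    ring
  · rw [mul_zero]

/-- binomial coefficients through factorials -/
def chs (n k : ℕ) : ℕ := n.descFactorial k / k.factorial

theorem chs_eq (n k : ℕ) : chs n k = n.choose k := (Nat.choose_eq_descFactorial_div_factorial n k).symm

/-- product of pairs modulo `p` -/
def pm (p : ℕ) (u v : ℕ × ℕ) : ℕ × ℕ :=
  (Nat.mod (Nat.add (Nat.mul u.1 v.1) (Nat.mul 2 (Nat.mul u.2 v.2))) p,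
    Nat.mod (Nat.add (Nat.mul u.1 v.2) (Nat.mul u.2 v.1)) p)

/-- powers of a pair -/
noncomputable def pp (p : ℕ) (u : ℕ × ℕ) (k : ℕ) : ℕ × ℕ := Nat.rec (1, 0) (fun _ ih => pm p u ih) k

/-- the value of a pair -/
def vl {F : Type} [Field F] (s : F) (u : ℕ × ℕ) : F := (u.1 : F) + (u.2 : F) * s

theorem cast_mod' {F : Type} [Field F] (p : ℕ) [CharP F p] (a : ℕ) : ((a % p : ℕ) : F) = (a : F) := by
  conv_rhs => rw [← Nat.div_add_mod a p]
  rw [Nat.cast_add, Nat.cast_mul, CharP.cast_eq_zero F p, zero_mul, zero_add]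

theorem vl_pm {F : Type} [Field F] {p : ℕ} [CharP F p] {s : F} (hs : s ^ 2 = 2) (u v : ℕ × ℕ) :
    vl s (pm p u v) = vl s u * vl s v := by
  have e1 : (pm p u v).1 = (u.1 * v.1 + 2 * (u.2 * v.2)) % p := rfl
  have e2 : (pm p u v).2 = (u.1 * v.2 + u.2 * v.1) % p := rfl
  unfold vl
  rw [e1, e2, cast_mod' p, cast_mod' p]
  push_cast
  linear_combination (-(u.2 : F) * (v.2 : F)) * hs

theorem vl_pp {F : Type} [Field F] {p : ℕ} [CharP F p] {s : F} (hs : s ^ 2 = 2) (u : ℕ × ℕ)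
    (k : ℕ) : vl s (pp p u k) = vl s u ^ k := by
  induction k with
  | zero => simp [pp, vl]
  | succ k ih =>
    have e1 : pp p u (k + 1) = pm p u (pp p u k) := rfl
    rw [e1, vl_pm hs, ih, pow_succ, mul_comm]

/-- the sum, as a pair modulo `p` -/
noncomputable def hs (p n c : ℕ) (N : ℕ) : ℕ × ℕ :=
  Nat.rec (0, 0) (fun i ih => cond (Nat.ble (Nat.mul 3 i) (Nat.mul 2 n))
    ((fun t : ℕ × ℕ => fun q : ℕ => (Nat.mod (Nat.add ih.1 (Nat.mul q t.1)) p,
      Nat.mod (Nat.add ih.2 (Nat.mul q t.2)) p))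
      (pm p (pp p (0, 3) (Nat.sub (Nat.mul 2 n) (Nat.mul 3 i))) (pp p (c, 1) i))
      (Nat.mod (Nat.mul (Nat.mul (chs n i) (chs (Nat.mul 2 (Nat.sub n i))
        (Nat.sub (Nat.mul 2 n) (Nat.mul 3 i)))) (Nat.pow 4 i)) p)) ih) N

theorem hs_eq {F : Type} [Field F] {p n c : ℕ} [CharP F p] {s : F} (hss : s ^ 2 = 2) {x : ℤ}
    (hc : (x : F) = (c : F)) (N : ℕ) :
    vl s (hs p n c N) = ∑ i ∈ Finset.range N, if 3 * i ≤ 2 * n then
      (((n.choose i * (2 * (n - i)).choose (2 * n - 3 * i) * 4 ^ i : ℕ) : F)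
        * (3 * s) ^ (2 * n - 3 * i) * ((x : F) + s) ^ i) else 0 := by
  induction N with
  | zero => simp [hs, vl]
  | succ i ih =>
    rw [Finset.sum_range_succ, ← ih]
    by_cases h1 : 3 * i ≤ 2 * n
    · rw [if_pos h1]
      set t : ℕ × ℕ := pm p (pp p (0, 3) (2 * n - 3 * i)) (pp p (c, 1) i) with ht
      set q : ℕ := (chs n i * chs (2 * (n - i)) (2 * n - 3 * i) * 4 ^ i) % p with hq
      have e1 : hs p n c (i + 1) = (((hs p n c i).1 + q * t.1) % p, ((hs p n c i).2 + q * t.2) % p) := by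
        have h2 : Nat.ble (Nat.mul 3 i) (Nat.mul 2 n) = true := by
          rw [Nat.ble_eq]; exact h1
        have h3 : hs p n c (i + 1) = cond (Nat.ble (Nat.mul 3 i) (Nat.mul 2 n))
          (((hs p n c i).1 + q * t.1) % p, ((hs p n c i).2 + q * t.2) % p) (hs p n c i) := rfl
        rw [h3, h2, cond_true]
      have e2 : vl s t = (3 * s) ^ (2 * n - 3 * i) * ((x : F) + s) ^ i := by
        rw [ht, vl_pm hss, vl_pp hss, vl_pp hss]
        congr 1
        · congr 1
          simp [vl]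
        · congr 1
          simp [vl, hc]
      have e3 : (q : F) = ((n.choose i * (2 * (n - i)).choose (2 * n - 3 * i) * 4 ^ i : ℕ) : F) := by
        rw [hq, cast_mod' p, chs_eq, chs_eq]
      rw [e1, mul_assoc, ← e2, ← e3]
      unfold vl
      simp only
      rw [cast_mod' p, cast_mod' p]
      push_cast
      ring
    · rw [if_neg h1, add_zero]
      have h2 : Nat.ble (Nat.mul 3 i) (Nat.mul 2 n) = false := by
        rw [Bool.eq_false_iff]
        intro h3
        rw [Nat.ble_eq] at h3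
        exact h1 h3
      have h3 : hs p n c (i + 1) = cond (Nat.ble (Nat.mul 3 i) (Nat.mul 2 n))
        (((hs p n c i).1 + (chs n i * chs (2 * (n - i)) (2 * n - 3 * i) * 4 ^ i) % p *
            (pm p (pp p (0, 3) (2 * n - 3 * i)) (pp p (c, 1) i)).1) % p,
          ((hs p n c i).2 + (chs n i * chs (2 * (n - i)) (2 * n - 3 * i) * 4 ^ i) % p *
            (pm p (pp p (0, 3) (2 * n - 3 * i)) (pp p (c, 1) i)).2) % p) (hs p n c i) := rfl
      rw [h3, h2, cond_false]

theorem vl_ne {F : Type} [Field F] {p : ℕ} [CharP F p] {s : F} (hs : s ^ 2 = 2) {u : ℕ × ℕ}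
    (hu : (u.1 * u.1 + (p - 2) * (u.2 * u.2)) % p ≠ 0) (hp : 2 ≤ p) : vl s u ≠ 0 := by
  intro h
  apply hu
  have h1 : ((u.1 * u.1 + (p - 2) * (u.2 * u.2) : ℕ) : F) = 0 := by
    rw [Nat.cast_add, Nat.cast_mul, Nat.cast_mul, Nat.cast_mul, Nat.cast_sub hp,
      CharP.cast_eq_zero F p]
    unfold vl at h
    push_cast
    linear_combination ((u.1 : F) - (u.2 : F) * s) * h + (u.2 : F) * (u.2 : F) * hs
  exact Nat.mod_eq_zero_of_dvd ((CharP.cast_eq_zero_iff F p _).mp h1)

/-- the test: the Hasse invariant is not zero -/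
noncomputable def hChk (p c : ℕ) : Bool :=
  !(Nat.beq (Nat.mod (Nat.add (Nat.mul (hs p (Nat.div p 2) c (Nat.add (Nat.div p 2) 1)).1
      (hs p (Nat.div p 2) c (Nat.add (Nat.div p 2) 1)).1)
    (Nat.mul (Nat.sub p 2) (Nat.mul (hs p (Nat.div p 2) c (Nat.add (Nat.div p 2) 1)).2
      (hs p (Nat.div p 2) c (Nat.add (Nat.div p 2) 1)).2))) p) 0)

theorem hChk_sound {F : Type} [Field F] {p c : ℕ} [CharP F p] (hp2 : 2 ≤ p) (hodd : p % 2 = 1)
    (h : hChk p c = true) {s : F} (hss : s ^ 2 = 2) {x : ℤ} (hc : (x : F) = (c : F)) :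
    hasse p x s ≠ 0 := by
  rw [hasse_sum (n := p / 2) (by omega), ← hs_eq (p := p) hss hc]
  apply vl_ne hss _ hp2
  intro h1
  unfold hChk at h
  have h2 : Nat.beq (Nat.mod (Nat.add (Nat.mul (hs p (Nat.div p 2) c (Nat.add (Nat.div p 2) 1)).1
      (hs p (Nat.div p 2) c (Nat.add (Nat.div p 2) 1)).1)
    (Nat.mul (Nat.sub p 2) (Nat.mul (hs p (Nat.div p 2) c (Nat.add (Nat.div p 2) 1)).2
      (hs p (Nat.div p 2) c (Nat.add (Nat.div p 2) 1)).2))) p) 0 = true := by
    rw [Nat.beq_eq]; exact h1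
  rw [h2] at h
  exact absurd h (by decide)

theorem t23a : hChk 23 3 = true := by decide +kernel

theorem t23b : hChk 23 20 = true := by decide +kernel

theorem t283a : hChk 283 13 = true := by decide +kernel

theorem t283b : hChk 283 270 = true := by decide +kernel

theorem t349a : hChk 349 126 = true := by decide +kernel

theorem t349b : hChk 349 223 = true := by decide +kernel

end H29ML
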