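import Pool.Agent.H29.ML.Fin
import Pool.Agent.H29.ML.Has

set_option autoImplicit false

/-!
# All primes left open, with supersingularity at `p` as a second input
-/

namespace H29ML

open H7LN

/-- The second input: for `p = 23, 283, 349` and every solution the curve
`Y ^ 2 + 3 √2 X Y + (x + √2) Y = X ^ 3` has supersingular reduction at the primes above `p`. -/
def SupersingularAtP : Prop :=
  ∀ p : ℕ, (p = 23 ∨ p = 283 ∨ p = 349) → ∀ x y : ℤ, x ^ 2 - 2 = y ^ p →
    ∀ (F : Type) [Field F] [CharP F p] (s : F), s ^ 2 = 2 → hasse p x s = 0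

theorem kill_hasse (H : SupersingularAtP) {p c : ℕ} (hp : p.Prime)
    (h3 : p = 23 ∨ p = 283 ∨ p = 349) (hc : hChk p c = true) {x y : ℤ} (hxy : x ^ 2 - 2 = y ^ p) (hx : x ≡ (c : ℤ) [ZMOD p]) :
    False := by
  have : Fact p.Prime := ⟨hp⟩
  obtain ⟨s, hs⟩ := IsAlgClosed.exists_pow_nat_eq (k := AlgebraicClosure (ZMod p)) 2
    (show 0 < 2 by norm_num)
  have hcp : CharP (AlgebraicClosure (ZMod p)) p := inferInstance
  have hxc : ((x : ℤ) : AlgebraicClosure (ZMod p)) = (c : AlgebraicClosure (ZMod p)) := by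
    have h := (CharP.intCast_eq_intCast (AlgebraicClosure (ZMod p)) p).mpr hx
    simpa using h
  have h2 : p % 2 = 1 := by
    rcases hp.eq_two_or_odd with h | h
    · omega
    · exact h
  exact hChk_sound hp.two_le h2 hc hs hxc (H p h3 x y hxy _ s hs)

theorem all_primes (H : LevelLowering) (H' : SupersingularAtP) (p : ℕ) (hp : p.Prime)
    (h14 : 14 ≤ p) (h911 : p ≤ 911) (h1 : p % 24 ≠ 1) (h5 : p % 24 ≠ 5) (h7 : p % 24 ≠ 7)
    (h11 : p % 24 ≠ 11) (x y : ℤ) (hxy : x ^ 2 - 2 = y ^ p) :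
    (x ≡ 1 [ZMOD p] ∨ x ≡ -1 [ZMOD p]) ∧ y ≡ -1 [ZMOD p] := by
  rcases final H p hp h14 h911 h1 h5 h7 h11 x y hxy with h | ⟨rfl, hx⟩ | ⟨rfl, hx⟩ | ⟨rfl, hx⟩
  · exact h
  · exfalso
    rcases hx with hx | hx
    · exact kill_hasse H' hp (by norm_num) t23a hxy (by exact_mod_cast hx)
    · exact kill_hasse H' hp (by norm_num) t23b hxy (hx.trans e23.symm)
  · exfalso
    rcases hx with hx | hx
    · exact kill_hasse H' hp (by norm_num) t283a hxy (by exact_mod_cast hx)
    · exact kill_hasse H' hp (by norm_num) t283b hxy (hx.trans e283.symm)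
  · exfalso
    rcases hx with hx | hx
    · exact kill_hasse H' hp (by norm_num) t349a hxy (by exact_mod_cast hx)
    · exact kill_hasse H' hp (by norm_num) t349b hxy
        (hx.trans (show (-126 : ℤ) ≡ ((223 : ℕ) : ℤ) [ZMOD ((349 : ℕ) : ℤ)] by decide))

end H29ML
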