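import Pool.Agent.H7.LN.Check

set_option autoImplicit false

/-!
# Traces of Frobenius of `Y ^ 2 = X ^ 3 + 2 x X ^ 2 + 2 X`
-/

namespace H29ML

open H7LN

/-- The trace of Frobenius at the prime `l` of the curve `Y ^ 2 = X ^ 3 + 2 x X ^ 2 + 2 X`:
`l` minus the number of its affine points over `ZMod l`. -/
noncomputable def trace (x : ℤ) (l : ℕ) : ℤ :=
  (l : ℤ) - (Nat.card {P : ZMod l × ZMod l //
    P.2 ^ 2 = P.1 ^ 3 + 2 * (x : ZMod l) * P.1 ^ 2 + 2 * P.1} : ℤ)

/-- number of points above `X` -/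
def cntf (l c h X : ℕ) : ℕ :=
  cond (Nat.beq (Nat.mod (Nat.pow (Nat.mod (Nat.mul X (Nat.add (Nat.mul X (Nat.add X
    (Nat.mul 2 c))) 2)) l) h) l) 1) 2
    (cond (Nat.beq (Nat.mod (Nat.mul X (Nat.add (Nat.mul X (Nat.add X
    (Nat.mul 2 c))) 2)) l) 0) 1 0)

/-- number of points -/
noncomputable def cnt (l c h n : ℕ) : ℕ :=
  Nat.rec 0 (fun X ih => Nat.add ih (cntf l c h X)) n

theorem cnt_eq (l c h n : ℕ) : cnt l c h n = ∑ X ∈ Finset.range n, cntf l c h X := by
  induction n with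
  | zero => rfl
  | succ n ih =>
    rw [Finset.sum_range_succ, ← ih]
    rfl

theorem sum_zmod (l : ℕ) [NeZero l] (f : ZMod l → ℕ) :
    ∑ X : ZMod l, f X = ∑ i ∈ Finset.range l, f (i : ZMod l) := by
  refine Finset.sum_nbij' (fun X => X.val) (fun i => (i : ZMod l)) ?_ ?_ ?_ ?_ ?_
  · intro X _
    exact Finset.mem_range.mpr (ZMod.val_lt X)
  · intro i _
    exact Finset.mem_univ _
  · intro X _
    exact ZMod.natCast_zmod_val X
  · intro i hi
    exact ZMod.val_natCast_of_lt (Finset.mem_range.mp hi)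
  · intro X _
    rw [ZMod.natCast_zmod_val]

theorem card_sqrt {l : ℕ} [Fact l.Prime] (hl : l ≠ 2) {h : ℕ} (hh : l = 2 * h + 1) (a : ZMod l) :
    Nat.card {Y : ZMod l // Y ^ 2 = a} = if a ^ h = 1 then 2 else if a = 0 then 1 else 0 := by
  have hc : ringChar (ZMod l) ≠ 2 := by
    rw [ZMod.ringChar_zmod_n]; exact hl
  have hcard : Fintype.card (ZMod l) / 2 = h := by
    rw [ZMod.card]; omega
  have h1 := quadraticChar_card_sqrts hc a
  have h2 : Nat.card {Y : ZMod l // Y ^ 2 = a} = {x : ZMod l | x ^ 2 = a}.toFinset.card := by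
    rw [Set.toFinset_card, Nat.card_eq_fintype_card]
    rfl
  rw [← h2] at h1
  have h0 : h ≠ 0 := by
    rintro rfl
    have := (Fact.out : l.Prime).one_lt
    omega
  by_cases ha : a = 0
  · subst ha
    rw [quadraticChar_zero] at h1
    rw [zero_pow h0, if_neg zero_ne_one, if_pos rfl]
    exact_mod_cast h1
  · rw [if_neg ha]
    by_cases h3 : a ^ h = 1
    · rw [if_pos h3]
      have h4 : quadraticChar (ZMod l) a = 1 := by
        rcases quadraticChar_dichotomy ha with h5 | h5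
        · exact h5
        · exfalso
          have h6 := quadraticChar_eq_pow_of_char_ne_two' hc a
          rw [hcard, h3, h5] at h6
          have h7 : (2 : ZMod l) = 0 := by
            have : (-1 : ZMod l) = 1 := by exact_mod_cast h6
            linear_combination -this
          exact Ring.two_ne_zero hc h7
      rw [h4] at h1
      exact_mod_cast h1
    · rw [if_neg h3]
      have h4 : quadraticChar (ZMod l) a = -1 := by
        rcases quadraticChar_dichotomy ha with h5 | h5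
        · exfalso
          have h6 := quadraticChar_eq_pow_of_char_ne_two' hc a
          rw [hcard, h5] at h6
          exact h3 (by exact_mod_cast h6.symm)
        · exact h5
      rw [h4] at h1
      have h5 : (Nat.card {Y : ZMod l // Y ^ 2 = a} : ℤ) = 0 := by rw [h1]; norm_num
      exact_mod_cast h5

theorem card_eq {l : ℕ} (hl : l.Prime) {h : ℕ} (hh : l = 2 * h + 1) {x : ℤ} {c : ℕ}
    (hc : (x : ZMod l) = (c : ZMod l)) :
    Nat.card {P : ZMod l × ZMod l //
      P.2 ^ 2 = P.1 ^ 3 + 2 * (x : ZMod l) * P.1 ^ 2 + 2 * P.1} = cnt l c h l := by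
  have : Fact l.Prime := ⟨hl⟩
  have hl2 : l ≠ 2 := by omega
  have e1 := Nat.card_congr (Equiv.subtypeProdEquivSigmaSubtype
    (fun (X Y : ZMod l) => Y ^ 2 = X ^ 3 + 2 * (x : ZMod l) * X ^ 2 + 2 * X))
  rw [e1, Nat.card_sigma, sum_zmod, cnt_eq]
  apply Finset.sum_congr rfl
  intro i _
  rw [card_sqrt hl2 hh]
  have e2 : (i : ZMod l) ^ 3 + 2 * (x : ZMod l) * (i : ZMod l) ^ 2 + 2 * (i : ZMod l)
      = ((i * (i * (i + 2 * c) + 2) : ℕ) : ZMod l) := by
    rw [hc]; push_cast; ring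
  rw [e2]
  set v : ℕ := i * (i * (i + 2 * c) + 2) with hv
  have e3 : cntf l c h i = cond (Nat.beq ((v % l) ^ h % l) 1) 2 (cond (Nat.beq (v % l) 0) 1 0) :=
    rfl
  rw [e3]
  have hl1 : 1 < l := hl.one_lt
  have e4 : ((v : ZMod l) ^ h = 1) ↔ (v % l) ^ h % l = 1 := by
    have h5 : ((v : ZMod l) ^ h = 1) ↔ (((v % l) ^ h : ℕ) : ZMod l) = ((1 : ℕ) : ZMod l) := by
      push_cast
      rw [ZMod.natCast_mod]
    rw [h5, ZMod.natCast_eq_natCast_iff]
    unfold Nat.ModEq
    rw [Nat.mod_eq_of_lt hl1]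
  have e5 : ((v : ZMod l) = 0) ↔ v % l = 0 := by
    rw [ZMod.natCast_eq_zero_iff]
    exact Nat.dvd_iff_mod_eq_zero
  by_cases h6 : (v % l) ^ h % l = 1
  · rw [if_pos (e4.mpr h6), h6]
    rfl
  · rw [if_neg (fun h7 => h6 (e4.mp h7))]
    have h8 : Nat.beq ((v % l) ^ h % l) 1 = false := by
      rw [Bool.eq_false_iff]
      intro h9
      exact h6 (Nat.eq_of_beq_eq_true h9)
    rw [h8, cond_false]
    by_cases h9 : v % l = 0
    · rw [if_pos (e5.mpr h9), h9]
      rfl
    · rw [if_neg (fun h7 => h9 (e5.mp h7))]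
      have h10 : Nat.beq (v % l) 0 = false := by
        rw [Bool.eq_false_iff]
        intro h11
        exact h9 (Nat.eq_of_beq_eq_true h11)
      rw [h10]
      rfl

theorem trace_eq {l : ℕ} (hl : l.Prime) {h : ℕ} (hh : l = 2 * h + 1) {x : ℤ} {c : ℕ}
    (hc : (x : ZMod l) = (c : ZMod l)) : trace x l = (l : ℤ) - (cnt l c h l : ℤ) := by
  unfold trace
  rw [card_eq hl hh hc]

end H29ML
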