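import Pool.Agent.H29.ML.Tab

set_option autoImplicit false
set_option maxRecDepth 100000

/-!
# All primes left open by the known results
-/

namespace H29ML

open H7LN

theorem y_mod {p : ℕ} (hp : p.Prime) {x y : ℤ} (h : x ^ 2 - 2 = y ^ p) :
    y ≡ x ^ 2 - 2 [ZMOD p] := by
  have : Fact p.Prime := ⟨hp⟩
  have hy : y ^ p ≡ y [ZMOD p] := by
    rw [← ZMod.intCast_eq_intCast_iff]
    push_cast
    exact ZMod.pow_card _
  rw [h]
  exact hy.symm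

theorem y_res {p : ℕ} (hp : p.Prime) {x y : ℤ} (h : x ^ 2 - 2 = y ^ p)
    (hx : x ≡ 1 [ZMOD p] ∨ x ≡ -1 [ZMOD p]) : y ≡ -1 [ZMOD p] := by
  refine (y_mod hp h).trans ?_
  have h1 : x ^ 2 ≡ 1 [ZMOD p] := by
    rcases hx with hx | hx
    · have := hx.pow 2
      rwa [one_pow] at this
    · have := hx.pow 2
      rwa [neg_one_sq] at this
  exact (h1.sub_right 2).trans (meq (by norm_num))

theorem cover : ∀ p < 912, p < 14 ∨ p % 24 = 1 ∨ p % 24 = 5 ∨ p % 24 = 7 ∨ p % 24 = 11 ∨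
    p = 19 ∨ p = 47 ∨ (∃ e ∈ tab, e.1 = p) ∨ ∃ d < 31, 2 ≤ d ∧ d < p ∧ p % d = 0 := by
  decide +kernel

theorem e23 : ((20 : ℕ) : ℤ) ≡ -3 [ZMOD ((23 : ℕ) : ℤ)] := by decide

theorem f23 : -((20 : ℕ) : ℤ) ≡ 3 [ZMOD ((23 : ℕ) : ℤ)] := by decide

theorem e283 : ((270 : ℕ) : ℤ) ≡ -13 [ZMOD ((283 : ℕ) : ℤ)] := by decide

theorem f283 : -((270 : ℕ) : ℤ) ≡ 13 [ZMOD ((283 : ℕ) : ℤ)] := by decide

theorem final (H : LevelLowering) (p : ℕ) (hp : p.Prime) (h14 : 14 ≤ p) (h911 : p ≤ 911)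
    (h1 : p % 24 ≠ 1) (h5 : p % 24 ≠ 5) (h7 : p % 24 ≠ 7) (h11 : p % 24 ≠ 11) (x y : ℤ)
    (hxy : x ^ 2 - 2 = y ^ p) :
    ((x ≡ 1 [ZMOD p] ∨ x ≡ -1 [ZMOD p]) ∧ y ≡ -1 [ZMOD p]) ∨
      (p = 23 ∧ (x ≡ 3 [ZMOD p] ∨ x ≡ -3 [ZMOD p])) ∨
      (p = 283 ∧ (x ≡ 13 [ZMOD p] ∨ x ≡ -13 [ZMOD p])) ∨
      (p = 349 ∧ (x ≡ 126 [ZMOD p] ∨ x ≡ -126 [ZMOD p])) := by
  have fin : (x ≡ 1 [ZMOD p] ∨ x ≡ -1 [ZMOD p]) →
      ((x ≡ 1 [ZMOD p] ∨ x ≡ -1 [ZMOD p]) ∧ y ≡ -1 [ZMOD p]) := fun h => ⟨h, y_res hp hxy h⟩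
  rcases cover p (by omega) with h | h | h | h | h | h | h | ⟨e, he, rfl⟩ | ⟨d, -, hd2, hdp, hd⟩
  · omega
  · exact absurd h h1
  · exact absurd h h5
  · exact absurd h h7
  · exact absurd h h11
  · subst h
    exact Or.inl (fin (res19 H hxy))
  · subst h
    exact Or.inl (fin (res47 H hxy))
  · rcases tab_main H he hxy with h | ⟨c, hc, hx⟩
    · exact Or.inl (fin h)
    · right
      obtain ⟨q, L⟩ := e
      simp only [left, List.mem_cons, List.not_mem_nil, or_false, Prod.mk.injEq] at hc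
      rcases hc with ⟨rfl, rfl⟩ | ⟨rfl, rfl⟩ | ⟨rfl, rfl⟩
      · left
        refine ⟨rfl, ?_⟩
        rcases hx with hx | hx
        · right
          exact hx.trans e23
        · left
          exact hx.trans f23
      · right; left
        refine ⟨rfl, ?_⟩
        rcases hx with hx | hx
        · right
          exact hx.trans e283
        · left
          exact hx.trans f283
      · right; right
        exact ⟨rfl, by exact_mod_cast hx⟩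
  · exfalso
    rcases (Nat.dvd_prime hp).mp (Nat.dvd_of_mod_eq_zero hd) with h | h <;> omega

end H29ML
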