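import Pool.Agent.H29.ML.Ap
import Mathlib.NumberTheory.LegendreSymbol.JacobiSymbol

set_option autoImplicit false

/-!
# Level lowering for `x ^ 2 - 2 = y ^ p` and the conditions on `x` modulo primes
-/

namespace H29ML

open H7LN

/-- The published input: for a solution of `x ^ 2 - 2 = y ^ p`, `p ≥ 17` prime, the `p`-torsion of
`E_x : Y ^ 2 = X ^ 3 + 2 x X ^ 2 + 2 X` is that of a newform of weight 2 and level 128; these are the
four quadratic twists of `E_1` by `d = 1, -1, 2, -2`. Hence the congruences between the traces of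
Frobenius at all odd primes `l`, including `l = p` (if `l` does not divide `y`), and the level
raising congruence if `l ≠ p` divides `y`. -/
def LevelLowering : Prop :=
  ∀ p : ℕ, p.Prime → 17 ≤ p → ∀ x y : ℤ, x ^ 2 - 2 = y ^ p →
    ∃ d : ℤ, (d = 1 ∨ d = -1 ∨ d = 2 ∨ d = -2) ∧
      ∀ l : ℕ, l.Prime → l ≠ 2 →
        (¬ (l : ℤ) ∣ y → trace x l ≡ jacobiSym d l * trace 1 l [ZMOD p]) ∧
        ((l : ℤ) ∣ y → l ≠ p →
          jacobiSym d l * trace 1 l ≡ (l : ℤ) + 1 [ZMOD p] ∨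
            jacobiSym d l * trace 1 l ≡ -((l : ℤ) + 1) [ZMOD p])

/-- the traces at `l` of `E_c` and of `E_1` are not congruent modulo `p` up to the sign allowed by
`d = 1, -1` -/
noncomputable def mis (p l h c : ℕ) : Bool :=
  (!(Nat.beq (Nat.mod (cnt l c h l) p) (Nat.mod (cnt l 1 h l) p))) &&
    (Nat.beq (Nat.mod l 4) 1 ||
      !(Nat.beq (Nat.mod (Nat.add (cnt l c h l) (cnt l 1 h l)) p) (Nat.mod (Nat.mul 2 l) p)))

theorem jac_cases {l h : ℕ} (hh : l = 2 * h + 1) {d : ℤ} (hd : d = 1 ∨ d = -1) :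
    jacobiSym d l = 1 ∨ (jacobiSym d l = -1 ∧ l % 4 ≠ 1) := by
  rcases hd with rfl | rfl
  · left
    exact jacobiSym.one_left l
  · have hodd : Odd l := ⟨h, hh⟩
    rw [jacobiSym.at_neg_one hodd]
    rcases (by omega : l % 4 = 1 ∨ l % 4 = 3) with h4 | h4
    · left
      exact ZMod.χ₄_nat_one_mod_four h4
    · right
      exact ⟨ZMod.χ₄_nat_three_mod_four h4, by omega⟩

theorem mod_of_zmod {p a b : ℕ} (h : (a : ℤ) ≡ (b : ℤ) [ZMOD p]) : a % p = b % p := by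
  have h1 : a ≡ b [MOD p] := Int.natCast_modEq_iff.mp h
  exact h1

theorem mis_sound {p l h c : ℕ} (hl : l.Prime) (hh : l = 2 * h + 1) {x : ℤ}
    (hc : (x : ZMod l) = (c : ZMod l)) {d : ℤ} (hd : d = 1 ∨ d = -1)
    (ht : trace x l ≡ jacobiSym d l * trace 1 l [ZMOD p]) : mis p l h c = false := by
  have e1 := trace_eq hl hh hc
  have e2 : trace 1 l = (l : ℤ) - (cnt l 1 h l : ℤ) := trace_eq hl hh (by norm_num)
  rw [e1, e2] at ht
  unfold mis
  rcases jac_cases hh hd with hj | ⟨hj, h4⟩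
  · rw [hj, one_mul] at ht
    have h1 : (cnt l c h l : ℤ) ≡ (cnt l 1 h l : ℤ) [ZMOD p] := by
      have := (Int.ModEq.refl (l : ℤ)).sub ht
      simpa using this
    have h2 := mod_of_zmod h1
    have h3 : Nat.beq (Nat.mod (cnt l c h l) p) (Nat.mod (cnt l 1 h l) p) = true := by
      rw [Nat.beq_eq]; exact h2
    rw [h3]
    rfl
  · rw [hj] at ht
    have h1 : ((cnt l c h l + cnt l 1 h l : ℕ) : ℤ) ≡ ((2 * l : ℕ) : ℤ) [ZMOD p] := by
      have h5 := (ht.add_right ((cnt l c h l : ℤ) + (cnt l 1 h l : ℤ))).sub_right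
        (-((l : ℤ) - (cnt l 1 h l : ℤ)))
      have h6 := h5.symm
      push_cast
      have e3 : (-1 : ℤ) * ((l : ℤ) - (cnt l 1 h l : ℤ)) + ((cnt l c h l : ℤ) + (cnt l 1 h l : ℤ))
          - (-((l : ℤ) - (cnt l 1 h l : ℤ))) = (cnt l c h l : ℤ) + (cnt l 1 h l : ℤ) := by ring
      have e4 : ((l : ℤ) - (cnt l c h l : ℤ)) + ((cnt l c h l : ℤ) + (cnt l 1 h l : ℤ))
          - (-((l : ℤ) - (cnt l 1 h l : ℤ))) = 2 * (l : ℤ) := by ring
      rwa [e3, e4] at h6
    have h2 := mod_of_zmod h1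
    have h3 : Nat.beq (Nat.mod (Nat.add (cnt l c h l) (cnt l 1 h l)) p) (Nat.mod (Nat.mul 2 l) p)
        = true := by
      rw [Nat.beq_eq]; exact h2
    have h5 : Nat.beq (Nat.mod l 4) 1 = false := by
      rw [Bool.eq_false_iff]
      intro h6
      exact h4 (Nat.eq_of_beq_eq_true h6)
    rw [h3, h5]
    simp

theorem cast_eq_of {l c : ℕ} {x : ℤ} (h : x ≡ (c : ℤ) [ZMOD l]) : (x : ZMod l) = (c : ZMod l) := by
  have := (ZMod.intCast_eq_intCast_iff x (c : ℤ) l).mpr h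
  simpa using this

/-- `l = 5` excludes `d = ± 2` -/
theorem d_five {p : ℕ} (hp : 17 ≤ p) {x y : ℤ} (hxy : x ^ 2 - 2 = y ^ p) {d : ℤ}
    (hd : d = 1 ∨ d = -1 ∨ d = 2 ∨ d = -2)
    (h5 : ¬ ((5 : ℕ) : ℤ) ∣ y → trace x 5 ≡ jacobiSym d 5 * trace 1 5 [ZMOD p]) :
    d = 1 ∨ d = -1 := by
  have hx5 : x % 5 = 0 ∨ x % 5 = 1 ∨ x % 5 = 2 ∨ x % 5 = 3 ∨ x % 5 = 4 := by omega
  have hy : ¬ ((5 : ℕ) : ℤ) ∣ y := by
    intro h
    have h1 : (5 : ℤ) ∣ x ^ 2 - 2 := by
      rw [hxy]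
      exact dvd_pow (by exact_mod_cast h) (by omega)
    have h2 : (x ^ 2 - 2) % 5 = 0 := Int.emod_eq_zero_of_dvd h1
    rcases hx5 with h3 | h3 | h3 | h3 | h3 <;> simp [pow_two, Int.sub_emod, Int.mul_emod, h3] at h2
  have h1 := h5 hy
  have ht : ∀ c : ℕ, x % 5 = (c : ℤ) → trace x 5 = 5 - (cnt 5 c 2 5 : ℤ) := by
    intro c hc
    have h2 : x ≡ (c : ℤ) [ZMOD ((5 : ℕ) : ℤ)] := by
      have : x ≡ x % 5 [ZMOD 5] := (Int.mod_modEq x 5).symm
      rw [hc] at this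
      exact_mod_cast this
    exact trace_eq (by norm_num) (by norm_num) (cast_eq_of h2)
  have ht1 : trace 1 5 = -2 := by
    have h2 : trace 1 5 = ((5 : ℕ) : ℤ) - (cnt 5 1 2 5 : ℤ) :=
      trace_eq (by norm_num) (by norm_num) (by norm_num)
    rw [h2, show cnt 5 1 2 5 = 7 by decide +kernel]
    norm_num
  have hx : trace x 5 = 4 ∨ trace x 5 = -2 ∨ trace x 5 = 0 := by
    rcases hx5 with h3 | h3 | h3 | h3 | h3
    · left
      rw [ht 0 (by exact_mod_cast h3), show cnt 5 0 2 5 = 1 by decide +kernel]; norm_num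
    · right; left
      rw [ht 1 (by exact_mod_cast h3), show cnt 5 1 2 5 = 7 by decide +kernel]; norm_num
    · right; right
      rw [ht 2 (by exact_mod_cast h3), show cnt 5 2 2 5 = 5 by decide +kernel]; norm_num
    · right; right
      rw [ht 3 (by exact_mod_cast h3), show cnt 5 3 2 5 = 5 by decide +kernel]; norm_num
    · right; left
      rw [ht 4 (by exact_mod_cast h3), show cnt 5 4 2 5 = 7 by decide +kernel]; norm_num
  have key : ¬ (trace x 5 ≡ 2 [ZMOD p]) := by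
    intro h2
    have h3 := h2.dvd
    have hp' : (17 : ℤ) ≤ p := by exact_mod_cast hp
    rcases hx with h4 | h4 | h4 <;> rw [h4] at h3 <;> norm_num at h3
    · have h5 : (p : ℤ) ∣ 2 := by
        have := h3.neg_right
        simpa using this
      have := Int.le_of_dvd (by norm_num) h5
      omega
    · have := Int.le_of_dvd (by norm_num) h3
      omega
    · have := Int.le_of_dvd (by norm_num) h3
      omega
  rcases hd with h2 | h2 | h2 | h2
  · exact Or.inl h2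
  · exact Or.inr h2
  · exfalso
    rw [h2, ht1, show jacobiSym 2 5 = -1 by norm_num] at h1
    exact key (by simpa using h1)
  · exfalso
    rw [h2, ht1, show jacobiSym (-2) 5 = -1 by norm_num] at h1
    exact key (by simpa using h1)

/-- the consequences with `d = ± 1` -/
theorem lowering {p : ℕ} (H : LevelLowering) (hpp : p.Prime) (hp : 17 ≤ p) {x y : ℤ}
    (hxy : x ^ 2 - 2 = y ^ p) :
    ∃ d : ℤ, (d = 1 ∨ d = -1) ∧
      ∀ l : ℕ, l.Prime → l ≠ 2 →
        (¬ (l : ℤ) ∣ y → trace x l ≡ jacobiSym d l * trace 1 l [ZMOD p]) ∧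
        ((l : ℤ) ∣ y → l ≠ p →
          jacobiSym d l * trace 1 l ≡ (l : ℤ) + 1 [ZMOD p] ∨
            jacobiSym d l * trace 1 l ≡ -((l : ℤ) + 1) [ZMOD p]) := by
  obtain ⟨d, hd, h⟩ := H p hpp hp x y hxy
  exact ⟨d, d_five hp hxy hd (h 5 (by norm_num) (by norm_num)).1, h⟩

/-- the test at `p` -/
noncomputable def killC (p h c : ℕ) : Bool :=
  (!(Nat.beq (Nat.mod (Nat.mul c c) p) 2)) && Nat.ble c p && (mis p p h c && mis p p h (Nat.sub p c))

theorem kill_one {p h c : ℕ} (H : LevelLowering) (hpp : p.Prime) (hp : 17 ≤ p)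
    (hh : p = 2 * h + 1) (hc2 : (c * c) % p ≠ 2) (hm : mis p p h c = true) {x y : ℤ}
    (hxy : x ^ 2 - 2 = y ^ p) (hx : x ≡ (c : ℤ) [ZMOD p]) : False := by
  obtain ⟨d, hd, hl⟩ := lowering H hpp hp hxy
  have hy : ¬ (p : ℤ) ∣ y := by
    intro h
    have h1 : (p : ℤ) ∣ x ^ 2 - 2 := by
      rw [hxy]
      exact dvd_pow h hpp.ne_zero
    have h2 : x ^ 2 ≡ 2 [ZMOD p] := (Int.modEq_iff_dvd.mpr h1).symm
    have h3 : ((c * c : ℕ) : ℤ) ≡ ((2 : ℕ) : ℤ) [ZMOD p] := by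
      push_cast
      have h4 := (hx.mul hx).symm
      refine h4.trans ?_
      rw [← sq]
      exact h2
    have h5 := mod_of_zmod h3
    rw [h5] at hc2
    exact hc2 (Nat.mod_eq_of_lt (by omega))
  have h1 := mis_sound hpp hh (cast_eq_of hx) hd ((hl p hpp (by omega)).1 hy)
  rw [hm] at h1
  exact absurd h1 (by decide)

theorem killC_sound {p h c : ℕ} (H : LevelLowering) (hpp : p.Prime) (hp : 17 ≤ p)
    (hh : p = 2 * h + 1) (hk : killC p h c = true) {x y : ℤ}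
    (hxy : x ^ 2 - 2 = y ^ p) (hx : x ≡ (c : ℤ) [ZMOD p] ∨ x ≡ -(c : ℤ) [ZMOD p]) : False := by
  unfold killC at hk
  rw [Bool.and_eq_true, Bool.and_eq_true, Bool.and_eq_true] at hk
  obtain ⟨⟨h1, h2⟩, h3, h4⟩ := hk
  rw [Nat.ble_eq] at h2
  have hc2 : (c * c) % p ≠ 2 := by
    intro h5
    have h6 : Nat.beq (Nat.mod (Nat.mul c c) p) 2 = true := by rw [Nat.beq_eq]; exact h5
    rw [h6] at h1
    simp at h1
  rcases hx with hx | hx
  · exact kill_one H hpp hp hh hc2 h3 hxy hx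
  · have h5 : x ≡ ((p - c : ℕ) : ℤ) [ZMOD p] := by
      rw [Nat.cast_sub h2]
      refine hx.trans ?_
      rw [Int.modEq_iff_dvd]
      exact ⟨1, by ring⟩
    refine kill_one H hpp hp hh ?_ h4 hxy h5
    intro h6
    apply hc2
    have h7 : ((c * c : ℕ) : ℤ) ≡ (((p - c) * (p - c) : ℕ) : ℤ) [ZMOD p] := by
      push_cast [Nat.cast_sub h2]
      rw [Int.modEq_iff_dvd]
      exact ⟨(p : ℤ) - 2 * c, by ring⟩
    rw [mod_of_zmod h7]
    exact h6

end H29ML
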