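import Pool.Agent.H29.ML.Frey
import Pool.Agent.H7.LN.D3
import Pool.Agent.H7.LN.D5

set_option autoImplicit false
set_option maxRecDepth 100000

/-!
# The exponents `k` for `p = 19` and `p = 47`
-/

namespace H29ML

open H7LN Zsqrtd

/-- test of the residue `X` modulo `l` for the exponent `k` -/
noncomputable def tstH (p l r m h E k X : ℕ) : Bool :=
  cond (Nat.beq (Nat.mod (Nat.pow (Nat.add (Nat.mul X X) (Nat.sub l 2)) m) l) 1)
    (cond (Nat.beq (Nat.mod (Nat.pow (Nat.add X r) m) l) (Nat.mod (Nat.pow E k) l))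
      (mis p l h X) true) true

theorem k_kill {p l r m h E k : ℕ} (H : LevelLowering) (hpp : p.Prime) (hp : 17 ≤ p)
    (hl : l.Prime) (hlp : m * p + 1 = l) (hm2 : m % 2 = 0) (hr : r * r % l = 2)
    (hE : (1 + r) ^ m % l = E) (hh : l = 2 * h + 1) (hne : l ≠ p)
    (hmul1 : (cnt l 1 h l + 1) % p ≠ 0) (hmul2 : (cnt l 1 h l) % p ≠ (2 * l + 1) % p)
    (hchk : loop (tstH p l r m h E k) l = true) {x y : ℤ} {β : ℤ√2}
    (hxy : x ^ 2 - 2 = y ^ p) (hβ : (⟨x, 1⟩ : ℤ√2) = eps ^ k * β ^ p) : False := by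
  have : Fact l.Prime := ⟨hl⟩
  obtain ⟨d, hd, hlow⟩ := lowering H hpp hp hxy
  have hl3 : 2 < l := by
    rcases Nat.lt_or_ge 2 l with h1 | h1
    · exact h1
    · have := Nat.mod_lt (r * r) (show 0 < l from hl.pos)
      omega
  obtain ⟨hA, hB⟩ := hlow l hl (by omega)
  by_cases hy : (l : ℤ) ∣ y
  · -- multiplicative reduction at `l`
    have h1 := hB hy hne
    have e2 : trace 1 l = (l : ℤ) - (cnt l 1 h l : ℤ) := trace_eq hl hh (by norm_num)
    have h2 : trace 1 l ≡ (l : ℤ) + 1 [ZMOD p] ∨ trace 1 l ≡ -((l : ℤ) + 1) [ZMOD p] := by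
      rcases jac_cases hh hd with hj | ⟨hj, -⟩
      · rw [hj, one_mul] at h1
        exact h1
      · rw [hj] at h1
        rcases h1 with h3 | h3
        · right
          have := h3.neg
          simpa using this
        · left
          have := h3.neg
          simpa using this
    rw [e2] at h2
    rcases h2 with h3 | h3
    · apply hmul1
      have h4 : ((cnt l 1 h l + 1 : ℕ) : ℤ) ≡ ((0 : ℕ) : ℤ) [ZMOD p] := by
        have h5 := (Int.ModEq.refl ((l : ℤ) + 1)).sub h3
        push_cast
        have e3 : (l : ℤ) + 1 - ((l : ℤ) - (cnt l 1 h l : ℤ)) = (cnt l 1 h l : ℤ) + 1 := by ring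
        rw [e3, sub_self] at h5
        exact h5
      have h6 := mod_of_zmod h4
      rwa [Nat.zero_mod] at h6
    · apply hmul2
      have h4 : ((cnt l 1 h l : ℕ) : ℤ) ≡ ((2 * l + 1 : ℕ) : ℤ) [ZMOD p] := by
        have h5 := (Int.ModEq.refl (l : ℤ)).sub h3
        push_cast
        have e3 : (l : ℤ) - ((l : ℤ) - (cnt l 1 h l : ℤ)) = (cnt l 1 h l : ℤ) := by ring
        have e4 : (l : ℤ) - -((l : ℤ) + 1) = 2 * (l : ℤ) + 1 := by ring
        rwa [e3, e4] at h5
      exact mod_of_zmod h4
  · have ht := hA hy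
    have hm : Even m := Nat.even_iff.mpr hm2
    set ρ : ZMod l := (r : ZMod l) with hρdef
    have hρ : ρ * ρ = 2 := by
      have h1 : ((r * r : ℕ) : ZMod l) = ((2 : ℕ) : ZMod l) := by
        rw [ZMod.natCast_eq_natCast_iff]
        unfold Nat.ModEq
        rw [hr, Nat.mod_eq_of_lt hl3]
      push_cast at h1
      exact h1
    have hpow : ∀ z : ZMod l, z ≠ 0 → z ^ (m * p) = 1 := by
      intro z hz
      have h1 := ZMod.pow_card_sub_one_eq_one hz
      have h2 : l - 1 = m * p := by omega
      rwa [h2] at h1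
    have hyz : (y : ZMod l) ≠ 0 := by
      intro h0
      exact hy ((ZMod.intCast_zmod_eq_zero_iff_dvd y l).mp h0)
    have hxyz : (x : ZMod l) * x - 2 = (y : ZMod l) ^ p := by
      have := congrArg (fun t : ℤ => (t : ZMod l)) hxy
      push_cast at this
      rw [← this]; ring
    have hprod : ((x : ZMod l) + ρ) * ((x : ZMod l) - ρ) = (x : ZMod l) * x - 2 := by
      linear_combination (-1 : ZMod l) * hρ
    have hx1 : (x : ZMod l) + ρ ≠ 0 := by
      intro h0
      rw [h0, zero_mul, hxyz] at hprod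
      exact pow_ne_zero p hyz hprod.symm
    obtain ⟨hA', -⟩ := field_id ρ hρ hm hpow hβ
    have h1 := hA' hx1
    have h3 : ((x : ZMod l) * x - 2) ^ m = 1 := by
      rw [hxyz, ← pow_mul, mul_comm p m]
      exact hpow _ hyz
    set X : ℕ := (x : ZMod l).val with hX
    have hXl : X < l := ZMod.val_lt _
    have hXc : (x : ZMod l) = (X : ZMod l) := by rw [hX]; exact (ZMod.natCast_zmod_val _).symm
    have h4 := loop_sound hchk X hXl
    have h5 : Nat.beq (Nat.mod (Nat.pow (Nat.add (Nat.mul X X) (Nat.sub l 2)) m) l) 1 = true := by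
      rw [Nat.beq_eq]
      change (X * X + (l - 2)) ^ m % l = 1
      have h6 : (((X * X + (l - 2)) ^ m : ℕ) : ZMod l) = ((1 : ℕ) : ZMod l) := by
        push_cast [Nat.cast_sub (by omega : 2 ≤ l)]
        rw [← hXc, ZMod.natCast_self, ← h3]
        congr 1
        ring
      rw [ZMod.natCast_eq_natCast_iff] at h6
      unfold Nat.ModEq at h6
      rw [h6, Nat.mod_eq_of_lt (by omega)]
    have h7 : Nat.beq (Nat.mod (Nat.pow (Nat.add X r) m) l) (Nat.mod (Nat.pow E k) l) = true := by
      rw [Nat.beq_eq]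
      change (X + r) ^ m % l = E ^ k % l
      have h8 : (((X + r) ^ m : ℕ) : ZMod l) = ((E ^ k : ℕ) : ZMod l) := by
        push_cast
        rw [← hXc, ← hE, ZMod.natCast_mod]
        push_cast
        exact h1
      rw [ZMod.natCast_eq_natCast_iff] at h8
      exact h8
    unfold tstH at h4
    rw [h5, cond_true, h7, cond_true] at h4
    rw [mis_sound hl hh hXc hd ht] at h4
    exact absurd h4 (by decide)

theorem rk19 : Rk 19 1 [1] := by
  intro x γ hx
  refine full_sound (e := 1) (f := 1) (bits := [true, false, false, true, true]) (by norm_num)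
    (by decide +kernel) ?_ (by decide +kernel) hx
  constructor <;> decide +kernel

theorem rk47 : Rk 47 1 [1] := by
  intro x γ hx
  refine full_sound (e := 1) (f := 1) (bits := [true, false, true, true, true, true]) (by norm_num)
    (by decide +kernel) ?_ (by decide +kernel) hx
  constructor <;> decide +kernel

/-- only `k = ± 1` -/
theorem res_fin {p : ℕ} (hodd : Odd p) (hp : 3 ≤ p) (h1 : Rk p 1 [1]) {x : ℤ} {β : ℤ√2} {k : ℕ}
    (hk : k = 1 ∨ k = p - 1) (hβ : (⟨x, 1⟩ : ℤ√2) = eps ^ k * β ^ p) :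
    x ≡ 1 [ZMOD p] ∨ x ≡ -1 [ZMOD p] := by
  rcases hk with rfl | rfl
  · obtain ⟨c, hc, hx⟩ := h1 x β hβ
    simp only [List.mem_cons, List.not_mem_nil, or_false] at hc
    rw [hc] at hx
    left
    simpa using hx
  · obtain ⟨β', hβ'⟩ := symm_sol hodd (Nat.sub_le p 1) hβ
    rw [show p - (p - 1) = 1 by omega] at hβ'
    obtain ⟨c, hc, hx⟩ := h1 (-x) β' hβ'
    simp only [List.mem_cons, List.not_mem_nil, or_false] at hc
    rw [hc] at hx
    right
    have := hx.neg
    simpa using this

theorem res19 (H : LevelLowering) {x y : ℤ} (hxy : x ^ 2 - 2 = y ^ 19) :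
    x ≡ 1 [ZMOD (19 : ℕ)] ∨ x ≡ -1 [ZMOD (19 : ℕ)] := by
  obtain ⟨k, hkp, β, hβ⟩ := exists_eps_pow (by norm_num) (by decide) hxy
  have hk : k ∈ [1, 3, 4, 8, 9, 10, 11, 15, 16, 18] :=
    sieve_sound (es := es19) (by decide +kernel) (by decide +kernel) hkp hβ
  have kill : ∀ j ∈ [3, 4, 8, 9, 10, 11, 15, 16], k = j → False := by
    intro j hj hkj
    subst hkj
    have hall : ∀ i ∈ [3, 4, 8, 9, 10, 11, 15, 16], loop (tstH 19 191 57 10 95 52 i) 191 = true := by
      decide +kernel
    exact k_kill (l := 191) (r := 57) (m := 10) (h := 95) (E := 52) H (by norm_num) (by norm_num)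
      (by norm_num) (by norm_num) (by norm_num) (by norm_num) (by decide +kernel) (by norm_num)
      (by norm_num) (by decide +kernel) (by decide +kernel) (hall k hj) hxy hβ
  apply res_fin (p := 19) (by decide) (by norm_num) rk19 _ hβ
  simp only [List.mem_cons, List.not_mem_nil, or_false] at hk kill
  rcases hk with h | h | h | h | h | h | h | h | h | h
  · exact Or.inl h
  · exact (kill 3 (by simp) h).elim
  · exact (kill 4 (by simp) h).elim
  · exact (kill 8 (by simp) h).elim
  · exact (kill 9 (by simp) h).elim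
  · exact (kill 10 (by simp) h).elim
  · exact (kill 11 (by simp) h).elim
  · exact (kill 15 (by simp) h).elim
  · exact (kill 16 (by simp) h).elim
  · exact Or.inr h

theorem res47 (H : LevelLowering) {x y : ℤ} (hxy : x ^ 2 - 2 = y ^ 47) :
    x ≡ 1 [ZMOD (47 : ℕ)] ∨ x ≡ -1 [ZMOD (47 : ℕ)] := by
  obtain ⟨k, hkp, β, hβ⟩ := exists_eps_pow (by norm_num) (by decide) hxy
  have hk : k ∈ [1, 14, 33, 46] :=
    sieve_sound (es := es47) (by decide +kernel) (by decide +kernel) hkp hβ
  have kill : ∀ j ∈ [14, 33], k = j → False := by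
    intro j hj hkj
    subst hkj
    have hall : ∀ i ∈ [14, 33], loop (tstH 47 1129 406 24 564 887 i) 1129 = true := by
      decide +kernel
    exact k_kill (l := 1129) (r := 406) (m := 24) (h := 564) (E := 887) H (by norm_num)
      (by norm_num) (by norm_num) (by norm_num) (by norm_num) (by norm_num) (by decide +kernel)
      (by norm_num) (by norm_num) (by decide +kernel) (by decide +kernel) (hall k hj) hxy hβ
  apply res_fin (p := 47) (by decide) (by norm_num) rk47 _ hβ
  simp only [List.mem_cons, List.not_mem_nil, or_false] at hk kill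
  rcases hk with h | h | h | h
  · exact Or.inl h
  · exact (kill 14 (by simp) h).elim
  · exact (kill 33 (by simp) h).elim
  · exact Or.inr h

end H29ML
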