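import Pool.Agent.H29.ML.Kk
import Pool.Agent.H7.LN.D1
import Pool.Agent.H7.LN.D2
import Pool.Agent.H7.LN.D4
import Pool.Agent.H7.LN.D6
import Pool.Agent.H7.LN.D7
import Pool.Agent.H7.LN.D8

set_option autoImplicit false
set_option maxRecDepth 100000

/-!
# The table of residues and the conditions at `p`
-/

namespace H29ML

open H7LN

/-- The primes `p` with `14 ≤ p ≤ 911` which are not `1, 5, 7, 11` modulo `24`, except `19` and
`47`, each with the list of the residues `± x` modulo `p` found in `Pool.Agent.H7.LN`. -/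
def tab : List (ℕ × List ℕ) :=
  [(17, [1, 10]), (23, [1, 7, 15, 20]), (37, [1]), (41, [1]), (43, [1, 41]), (61, [1]),
   (67, [1]), (71, [1, 17]), (89, [1]), (109, [1, 64]), (113, [1]), (137, [1, 86]),
   (139, [1, 18]), (157, [1, 109]), (163, [1, 20]), (167, [1, 9, 96]), (181, [1, 56, 109]),
   (191, [1, 18, 28, 63, 150]), (211, [1, 166]), (229, [1]), (233, [1, 147]), (239, [1]),
   (257, [1, 82]), (263, [1, 216]), (277, [1, 241]), (281, [1, 215]),
   (283, [1, 48, 104, 239, 270]), (307, [1, 202, 224, 303]), (311, [1, 161]), (331, [1]),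
   (349, [1, 126, 204, 246]), (353, [1, 240]), (359, [1, 198, 300]), (373, [1]), (379, [1]),
   (383, [1]), (397, [1]), (401, [1]), (421, [1, 341]), (431, [1]), (449, [1, 151, 176]),
   (479, [1]), (499, [1, 11, 254]), (503, [1]), (521, [1, 184, 425]), (523, [1, 46, 57, 77]),
   (541, [1, 235, 450]), (547, [1, 409]), (569, [1, 412, 500]), (571, [1, 228]), (593, [1]),
   (599, [1, 366]), (613, [1]), (617, [1]), (619, [1, 374]), (641, [1, 287]), (643, [1]),
   (647, [1, 316, 394]), (661, [1, 595]), (691, [1]), (709, [1, 574]), (719, [1]),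
   (733, [1, 129]), (739, [1, 349, 397, 565]), (743, [1, 704]), (757, [1, 464]), (761, [1, 178]),
   (787, [1]), (809, [1, 65]), (811, [1]), (829, [1, 334, 737]), (839, [1, 276, 816]),
   (853, [1, 127, 380]), (857, [1, 97]), (859, [1, 207]), (863, [1, 144, 195]), (877, [1]),
   (881, [1]), (883, [1, 204, 538]), (887, [1, 379]), (907, [1]), (911, [1])]

/-- the residues which are not excluded -/
def left : List (ℕ × ℕ) := [(23, 20), (283, 270), (349, 126)]

theorem tab_res : ∀ e ∈ tab, Res e.1 e.2 := by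
  intro e he
  simp only [tab, List.mem_cons, List.not_mem_nil, or_false] at he
  rcases he with rfl | rfl | rfl | rfl | rfl | rfl | rfl | rfl | rfl | rfl | rfl | rfl | rfl | rfl
    | rfl | rfl | rfl | rfl | rfl | rfl | rfl | rfl | rfl | rfl | rfl | rfl | rfl | rfl | rfl |
    rfl | rfl | rfl | rfl | rfl | rfl | rfl | rfl | rfl | rfl | rfl | rfl | rfl | rfl | rfl | rfl
    | rfl | rfl | rfl | rfl | rfl | rfl | rfl | rfl | rfl | rfl | rfl | rfl | rfl | rfl | rfl |
    rfl | rfl | rfl | rfl | rfl | rfl | rfl | rfl | rfl | rfl | rfl | rfl | rfl | rfl | rfl | rfl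
    | rfl | rfl | rfl | rfl | rfl | rfl
  · exact H7LN.res17
  · exact H7LN.res23
  · exact H7LN.res37
  · exact H7LN.res41
  · exact H7LN.res43
  · exact H7LN.res61
  · exact H7LN.res67
  · exact H7LN.res71
  · exact H7LN.res89
  · exact H7LN.res109
  · exact H7LN.res113
  · exact H7LN.res137
  · exact H7LN.res139
  · exact H7LN.res157
  · exact H7LN.res163
  · exact H7LN.res167
  · exact H7LN.res181
  · exact H7LN.res191
  · exact H7LN.res211
  · exact H7LN.res229
  · exact H7LN.res233
  · exact H7LN.res239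
  · exact H7LN.res257
  · exact H7LN.res263
  · exact H7LN.res277
  · exact H7LN.res281
  · exact H7LN.res283
  · exact H7LN.res307
  · exact H7LN.res311
  · exact H7LN.res331
  · exact H7LN.res349
  · exact H7LN.res353
  · exact H7LN.res359
  · exact H7LN.res373
  · exact H7LN.res379
  · exact H7LN.res383
  · exact H7LN.res397
  · exact H7LN.res401
  · exact H7LN.res421
  · exact H7LN.res431
  · exact H7LN.res449
  · exact H7LN.res479
  · exact H7LN.res499
  · exact H7LN.res503
  · exact H7LN.res521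
  · exact H7LN.res523
  · exact H7LN.res541
  · exact H7LN.res547
  · exact H7LN.res569
  · exact H7LN.res571
  · exact H7LN.res593
  · exact H7LN.res599
  · exact H7LN.res613
  · exact H7LN.res617
  · exact H7LN.res619
  · exact H7LN.res641
  · exact H7LN.res643
  · exact H7LN.res647
  · exact H7LN.res661
  · exact H7LN.res691
  · exact H7LN.res709
  · exact H7LN.res719
  · exact H7LN.res733
  · exact H7LN.res739
  · exact H7LN.res743
  · exact H7LN.res757
  · exact H7LN.res761
  · exact H7LN.res787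
  · exact H7LN.res809
  · exact H7LN.res811
  · exact H7LN.res829
  · exact H7LN.res839
  · exact H7LN.res853
  · exact H7LN.res857
  · exact H7LN.res859
  · exact H7LN.res863
  · exact H7LN.res877
  · exact H7LN.res881
  · exact H7LN.res883
  · exact H7LN.res887
  · exact H7LN.res907
  · exact H7LN.res911

/-- the test of one prime -/
noncomputable def chk (e : ℕ × List ℕ) : Bool :=
  primeChk e.1 && Nat.ble 17 e.1 && Nat.beq (Nat.add (Nat.mul 2 (Nat.div e.1 2)) 1) e.1 &&
    e.2.all (fun c => Nat.beq c 1 || (left.any (fun f => Nat.beq f.1 e.1 && Nat.beq f.2 c) ||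
      killC e.1 (Nat.div e.1 2) c))

theorem tab_chk : tab.all chk = true := by decide +kernel

theorem tab_main (H : LevelLowering) {p : ℕ} {L : List ℕ} (he : (p, L) ∈ tab) {x y : ℤ}
    (hxy : x ^ 2 - 2 = y ^ p) :
    (x ≡ 1 [ZMOD p] ∨ x ≡ -1 [ZMOD p]) ∨
      ∃ c, (p, c) ∈ left ∧ (x ≡ (c : ℤ) [ZMOD p] ∨ x ≡ -(c : ℤ) [ZMOD p]) := by
  have h1 := List.all_eq_true.mp tab_chk _ he
  unfold chk at h1
  rw [Bool.and_eq_true, Bool.and_eq_true, Bool.and_eq_true] at h1
  obtain ⟨⟨⟨hpr, h17⟩, hh⟩, hall⟩ := h1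
  have hpp : p.Prime := primeChk_sound hpr
  rw [Nat.ble_eq] at h17
  have hh' : p = 2 * (p / 2) + 1 := (Nat.eq_of_beq_eq_true hh).symm
  obtain ⟨c, hc, hx⟩ := tab_res _ he x y hxy
  have h2 := List.all_eq_true.mp hall c hc
  rw [Bool.or_eq_true, Bool.or_eq_true] at h2
  rcases h2 with h2 | h2 | h2
  · left
    rw [Nat.eq_of_beq_eq_true h2, Nat.cast_one] at hx
    exact hx
  · right
    rw [List.any_eq_true] at h2
    obtain ⟨f, hf, h3⟩ := h2
    rw [Bool.and_eq_true] at h3
    refine ⟨c, ?_, hx⟩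
    have h4 : f = (p, c) := Prod.ext (Nat.eq_of_beq_eq_true h3.1) (Nat.eq_of_beq_eq_true h3.2)
    rwa [h4] at hf
  · exact (killC_sound H hpp h17 hh' h2 hxy hx).elim

end H29ML
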